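import Pool.Agent.H806.Main

/-!
# A simple Borel Anosov representation that is not Borel Anosov (`MP_709218_gt`, Q1)

We prove that there are a closed surface group `Γ` (a discrete, torsion-free, cocompact subgroup of
`SL(2, ℝ)`) and a representation `ρ : Γ → SL(7, ℂ)` which is simple Borel Anosov, that is,
`k`-Anosov in restriction to the Birman-Series set for every `k = 1, …, 6`, but which is not Borel
Anosov.

## The definitions (file `Pool.Agent.H806.Defs`) and the problem file

* `SL2` is `SL(2, ℝ)`; the unit tangent bundle of the hyperbolic plane is `SL(2, ℝ) / {1, -1}`, the
  geodesic flow is the right multiplication by `flow t = diag (exp (t / 2), exp (- t / 2))`, and a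
  subset of, or a section over, the unit tangent bundle is given by its preimage in `SL(2, ℝ)`.
* `IsClosedSurfaceGroup Γ`: `Γ` is discrete, torsion-free and cocompact in `SL(2, ℝ)`, so that it
  is the fundamental group of the closed hyperbolic surface `S = Γ \ ℍ`.
* `TangentToSimpleClosed Γ g`: the vector `g` is tangent to a simple closed geodesic of `S`.
* `BirmanSeries Γ`: the closure of the set of these vectors, the preimage of the Birman-Series set.
* `IsAnosovOn Γ Y k ρ`: `ρ` is `k`-Anosov in restriction to `Y`: there is a splitting (given by
  projections `P g` of rank `k`, `IsSplitting`), continuous, equivariant and invariant under the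
  flow, of the flat bundle of `ρ` over `Y`, which is dominated with respect to a continuous metric
  (`IsMetric`) of this bundle.
* `IsSimpleBorelAnosov Γ ρ`: `k`-Anosov in restriction to `BirmanSeries Γ` for `1 ≤ k ≤ d - 1`.
* `IsBorelAnosov Γ ρ`: `k`-Anosov in restriction to the whole unit tangent bundle for
  `1 ≤ k ≤ d - 1`.

## The construction

`Γ` has finite index in the group `G` generated by `A = (0, -1; 1, 0)`, `T = diag (t, 1 / t)` and
`C = (S, -K; K, -S)` with `S (t - 1 / t) = 1`, `K ^ 2 = 1 + S ^ 2`, for a transcendental `t > 1`
very close to `1`; it is the kernel of the specialisation `t = i`.  The representation is the sum of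
the second symmetric power of the inclusion and of the third symmetric power of the specialisation
`j` of `G` at a complex number `t'` with `|t'| ^ 2 = t` and a much larger argument.  The simple
closed geodesics are shown to follow words in `T` and in two blocks, on which `log |j|` is at most
`3 / 5` of the real one, and quasi-multiplicative; so the cube of the growth of `j` is dominated by
the square of the growth of the inclusion.  For the non-simple element `T² C T⁻² C⁻¹` the opposite
domination holds, and a heteroclinic geodesic shows that `ρ` is not even `1`-Anosov.
-/

namespace Pool.Agent.Results.MP_709218_gt.SimpleBorelNotBorel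

open Pool.Agent.H806

/-- There is a closed surface group `Γ` (with a non-empty Birman-Series set) and a representation
`ρ : Γ → SL(7, ℂ)` which is simple Borel Anosov and not Borel Anosov. -/
theorem result : ∃ Γ : Subgroup SL2, IsClosedSurfaceGroup Γ ∧ (BirmanSeries Γ).Nonempty ∧
    ∃ ρ : Γ →* Matrix.SpecialLinearGroup (Fin 7) ℂ,
      IsSimpleBorelAnosov Γ ρ ∧ ¬ IsBorelAnosov Γ ρ :=
  Pool.Agent.H806.main

end Pool.Agent.Results.MP_709218_gt.SimpleBorelNotBorel
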